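import Pool.Agent.ShghX.PrimeX

/-!
# What a counterexample would look like, for a given degree with respect to `-K_9`

`P 0, ..., P (s - 1)` are points of the affine plane over a field `k` whose `2 s` coordinates are
algebraically independent over the prime field. We consider curves of degree `δ` with multiplicities
`≥ μ i` at `P i`, that is, the divisor class `D = δ H - Σ μ_i E_i` on the blow-up `X`.
-/

namespace Pool.Agent.Lib.MP_0dccba_ag.AnticanonicalDegreeOld

open MvPolynomial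

/-- `H⁰(X, D)`: the polynomials of degree `≤ δ` with multiplicity `≥ μ i` at the point `P i`. -/
def sections {k : Type*} [Field k] {s : ℕ} (P : Fin s → Fin 2 → k) (δ : ℕ) (μ : Fin s → ℕ) :
    Submodule k (MvPolynomial (Fin 2) k) where
  carrier := {f | f.totalDegree ≤ δ ∧ ∀ i, f ∈ (Ideal.span {X 0 - C (P i 0), X 1 - C (P i 1)} :
    Ideal (MvPolynomial (Fin 2) k)) ^ μ i}
  add_mem' := fun {f g} hf hg => ⟨(totalDegree_add f g).trans (max_le hf.1 hg.1),
    fun i => Ideal.add_mem _ (hf.2 i) (hg.2 i)⟩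
  zero_mem' := ⟨by simp, fun i => Ideal.zero_mem _⟩
  smul_mem' := fun c f hf => ⟨(totalDegree_smul_le c f).trans hf.1, fun i => by
    rw [smul_eq_C_mul]
    exact Ideal.mul_mem_left _ _ (hf.2 i)⟩

/-- The Euler characteristic `χ(D) = (δ + 1)(δ + 2) / 2 - Σ μ_i (μ_i + 1) / 2`. -/
def chi {s : ℕ} (δ : ℕ) (μ : Fin s → ℕ) : ℤ :=
  ((δ + 2).choose 2 : ℤ) - ∑ i, ((μ i + 1).choose 2 : ℤ)

/-- `D` is the class of a prime divisor: there is an irreducible polynomial of degree `δ` which has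
multiplicity exactly `μ i` at `P i`. -/
def IsPrimeClass {k : Type*} [Field k] {s : ℕ} (P : Fin s → Fin 2 → k) (δ : ℕ) (μ : Fin s → ℕ) :
    Prop :=
  ∃ f : MvPolynomial (Fin 2) k, Irreducible f ∧ f.totalDegree = δ ∧
    ∀ i, f ∈ (Ideal.span {X 0 - C (P i 0), X 1 - C (P i 1)} : Ideal (MvPolynomial (Fin 2) k)) ^ μ i ∧
      f ∉ (Ideal.span {X 0 - C (P i 0), X 1 - C (P i 1)} :
        Ideal (MvPolynomial (Fin 2) k)) ^ (μ i + 1)

/-- `-K_9 · D = 3 δ - Σ μ (c l)`, where `c 0, ..., c 8` are nine of the points. -/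
def degK {s : ℕ} (c : Fin 9 → Fin s) (δ : ℕ) (μ : Fin s → ℕ) : ℤ := 3 * δ - ∑ l, (μ (c l) : ℤ)

/-- The number of points which have positive multiplicity and are not among the nine. -/
def others {s : ℕ} (c : Fin 9 → Fin s) (μ : Fin s → ℕ) : ℕ :=
  (Finset.univ.filter fun i => (∀ l, i ≠ c l) ∧ 1 ≤ μ i).card

theorem sections_eq {k : Type*} [Field k] {s : ℕ} (P : Fin s → Fin 2 → k) (δ : ℕ)
    (μ : Fin s → ℕ) : sections P δ μ = ShghT.LS δ μ P := rfl

/-- Choose nine of the points and let `e = -K_9 · D`. Suppose that `D` is standard with respect to the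
nine points (the sum of any three of the nine multiplicities is at most `δ`), or that `D` is the class
of a prime divisor. If `h⁰(D) ≠ max (0, χ(D))` then `e ≥ 3`, `|χ(D)| < 2 e²`, less than `2 e³` of the
other multiplicities are positive, `h⁰(D) ≤ χ(D) + 2 e²`, and if `e = 3` then `χ(D) = 0` and exactly
one other multiplicity is positive. -/
theorem result {k : Type*} [Field k] {s : ℕ} (P : Fin s → Fin 2 → k)
    (hP : AlgebraicIndependent (⊥ : Subfield k) (fun ij : Fin s × Fin 2 => P ij.1 ij.2))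
    (δ : ℕ) (μ : Fin s → ℕ) (c : Fin 9 → Fin s) (hc : Function.Injective c)
    (hD : (∀ i j l, i ≠ j → i ≠ l → j ≠ l → μ (c i) + μ (c j) + μ (c l) ≤ δ) ∨
      IsPrimeClass P δ μ)
    (hne : (Module.finrank k (sections P δ μ) : ℤ) ≠ max 0 (chi δ μ)) :
    3 ≤ degK c δ μ ∧ |chi δ μ| < 2 * degK c δ μ ^ 2 ∧ others c μ < 2 * degK c δ μ ^ 3 ∧
      (Module.finrank k (sections P δ μ) : ℤ) ≤ chi δ μ + 2 * degK c δ μ ^ 2 ∧
      (degK c δ μ = 3 → chi δ μ = 0 ∧ others c μ = 1) := by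
  rw [sections_eq] at hne ⊢
  have hprime : ∀ f : MvPolynomial (Fin 2) k, Irreducible f → f.totalDegree = δ →
      (∀ i, f ∈ (Ideal.span {X 0 - C (P i 0), X 1 - C (P i 1)} :
        Ideal (MvPolynomial (Fin 2) k)) ^ μ i ∧ f ∉ (Ideal.span {X 0 - C (P i 0), X 1 - C (P i 1)} :
        Ideal (MvPolynomial (Fin 2) k)) ^ (μ i + 1)) → ShghT.PrimeAt δ P μ f := by
    intro f hf hdeg hmul
    obtain ⟨T, -⟩ := ShghT.exists_tri (K := k)
      (fun t => ![if t = 1 then 1 else 0, if t = 2 then 1 else 0]) (by simp)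
    exact ⟨hdeg.le, ⟨T, T.irreducible_hg_of_irreducible hdeg hf⟩, fun i => (hmul i).1,
      fun i => (hmul i).2⟩
  have key : ¬ ShghT.HypZ (degK c δ μ) (chi δ μ) (others c μ) := by
    intro h
    apply hne
    rcases hD with hD | ⟨f, hf, hdeg, hmul⟩
    · exact ShghT.std_X P hP δ μ c hc hD h
    · have h1 := (ShghT.prime_X δ P hP μ c hc f (hprime f hf hdeg hmul)).1 h
      have h2 : (0 : ℤ) ≤ Module.finrank k (ShghT.LS δ μ P) := by positivity
      rw [h1] at h2
      rw [h1]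
      exact (max_eq_right h2).symm
  rw [ShghT.HypZ] at key
  push Not at key
  obtain ⟨h1, h2, h3, h4⟩ := key
  refine ⟨by omega, h2, h3, ?_, h4⟩
  rcases hD with hD | ⟨f, hf, hdeg, hmul⟩
  · exact ShghT.std_B P hP δ μ c hc hD (abs_lt.1 h2).1.le
  · exact (ShghT.prime_X δ P hP μ c hc f (hprime f hf hdeg hmul)).2

end Pool.Agent.Lib.MP_0dccba_ag.AnticanonicalDegreeOld
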