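import Pool.Agent.ShghZ.FinalZ

/-!
# The canonical degree and the self-intersection of a counterexample

`P 0, ..., P (s - 1)` are points of the affine plane over a field `k` whose `2 s` coordinates are
algebraically independent over the prime field. We consider curves of degree `δ` with multiplicities
`≥ μ i` at `P i`, that is, the divisor class `D = δ H - Σ μ_i E_i` on the blow-up `X`.
-/

namespace Pool.Agent.Lib.MP_0dccba_ag.CanonicalDegreeOld

open MvPolynomial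

/-- `H⁰(X, D)`: the polynomials of degree `≤ δ` with multiplicity `≥ μ i` at the point `P i`. -/
def sections {k : Type*} [Field k] {s : ℕ} (P : Fin s → Fin 2 → k) (δ : ℕ) (μ : Fin s → ℕ) :
    Submodule k (MvPolynomial (Fin 2) k) where
  carrier := {f | f.totalDegree ≤ δ ∧ ∀ i, f ∈ (Ideal.span {X 0 - C (P i 0), X 1 - C (P i 1)} :
    Ideal (MvPolynomial (Fin 2) k)) ^ μ i}
  add_mem' := fun {f g} hf hg => ⟨(totalDegree_add f g).trans (max_le hf.1 hg.1),
    fun i => Ideal.add_mem _ (hf.2 i) (hg.2 i)⟩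
  zero_mem' := ⟨by simp, fun i => Ideal.zero_mem _⟩
  smul_mem' := fun c f hf => ⟨(totalDegree_smul_le c f).trans hf.1, fun i => by
    rw [smul_eq_C_mul]
    exact Ideal.mul_mem_left _ _ (hf.2 i)⟩

/-- The Euler characteristic `χ(D) = (δ + 1)(δ + 2) / 2 - Σ μ_i (μ_i + 1) / 2`. -/
def chi {s : ℕ} (δ : ℕ) (μ : Fin s → ℕ) : ℤ :=
  ((δ + 2).choose 2 : ℤ) - ∑ i, ((μ i + 1).choose 2 : ℤ)

/-- `K_X · D = Σ μ_i - 3 δ`. -/
def canonicalDegree {s : ℕ} (δ : ℕ) (μ : Fin s → ℕ) : ℤ := ∑ i, (μ i : ℤ) - 3 * δ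

/-- `D² = δ² - Σ μ_i²`. -/
def selfIntersection {s : ℕ} (δ : ℕ) (μ : Fin s → ℕ) : ℤ := (δ : ℤ) ^ 2 - ∑ i, (μ i : ℤ) ^ 2

/-- `D` is standard: the sum of any three of the multiplicities is at most `δ`. -/
def IsStandard {s : ℕ} (δ : ℕ) (μ : Fin s → ℕ) : Prop :=
  ∀ i j l, i ≠ j → i ≠ l → j ≠ l → μ i + μ j + μ l ≤ δ

/-- `D` is the class of a prime divisor: there is an irreducible polynomial of degree `δ` which has
multiplicity exactly `μ i` at `P i`. -/
def IsPrimeClass {k : Type*} [Field k] {s : ℕ} (P : Fin s → Fin 2 → k) (δ : ℕ) (μ : Fin s → ℕ) :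
    Prop :=
  ∃ f : MvPolynomial (Fin 2) k, Irreducible f ∧ f.totalDegree = δ ∧
    ∀ i, f ∈ (Ideal.span {X 0 - C (P i 0), X 1 - C (P i 1)} : Ideal (MvPolynomial (Fin 2) k)) ^ μ i ∧
      f ∉ (Ideal.span {X 0 - C (P i 0), X 1 - C (P i 1)} :
        Ideal (MvPolynomial (Fin 2) k)) ^ (μ i + 1)

theorem sections_eq {k : Type*} [Field k] {s : ℕ} (P : Fin s → Fin 2 → k) (δ : ℕ)
    (μ : Fin s → ℕ) : sections P δ μ = ShghT.LS δ μ P := rfl

/-- Let `D` be standard or the class of a prime divisor. If `h⁰(D) ≠ max (0, χ(D))` then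
`K_X · D ≥ 5` and `D² < (K_X · D)²`. If moreover `D` is standard and `μ (c 0) ≥ ... ≥ μ (c 8)` are
the nine largest multiplicities, then also `K_X · D > 3 δ - Σ_l μ (c l)`, unless
`δ = μ (c 0) + 2 μ (c 8)`. -/
theorem result {k : Type*} [Field k] {s : ℕ} (hs : 9 ≤ s) (P : Fin s → Fin 2 → k)
    (hP : AlgebraicIndependent (⊥ : Subfield k) (fun ij : Fin s × Fin 2 => P ij.1 ij.2))
    (δ : ℕ) (μ : Fin s → ℕ) (hD : IsStandard δ μ ∨ IsPrimeClass P δ μ)
    (hne : (Module.finrank k (sections P δ μ) : ℤ) ≠ max 0 (chi δ μ)) :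
    5 ≤ canonicalDegree δ μ ∧ selfIntersection δ μ < canonicalDegree δ μ ^ 2 ∧
      (IsStandard δ μ → ∀ c : Fin 9 → Fin s, Function.Injective c → (Antitone fun l => μ (c l)) →
        (∀ i, i ∉ Set.range c → ∀ l, μ i ≤ μ (c l)) → δ ≠ μ (c 0) + 2 * μ (c 8) →
        3 * (δ : ℤ) - ∑ l, (μ (c l) : ℤ) < canonicalDegree δ μ) := by
  rw [sections_eq] at hne
  have key : ¬ ((∑ i, (μ i : ℤ)) - 3 * δ ≤ 4 ∨
      ((∑ i, (μ i : ℤ)) - 3 * δ) ^ 2 ≤ (δ : ℤ) ^ 2 - ∑ i, (μ i : ℤ) ^ 2) := by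
    intro h
    apply hne
    rcases hD with hD | ⟨f, hf, hdeg, hmul⟩
    · exact ShghT.std_Z hs δ P hP μ hD h
    · obtain ⟨T, -⟩ := ShghT.exists_tri (K := k)
        (fun t => ![if t = 1 then 1 else 0, if t = 2 then 1 else 0]) (by simp)
      have h1 := ShghT.prime_Z hs δ P hP μ f ⟨hdeg.le,
        ⟨T, T.irreducible_hg_of_irreducible hdeg hf⟩, fun i => (hmul i).1,
        fun i => (hmul i).2⟩ h
      have h2 : (0 : ℤ) ≤ Module.finrank k (ShghT.LS δ μ P) := by positivity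
      rw [h1] at h2
      rw [h1]
      exact (max_eq_right h2).symm
  rw [not_or, not_le, not_le] at key
  refine ⟨key.1, key.2, ?_⟩
  intro hstd c hc hanti hmax hpen
  by_contra hK
  apply hne
  refine ShghT.std_K9 δ P hP μ hstd c hc hanti hmax hpen ?_
  rw [canonicalDegree] at hK
  omega

end Pool.Agent.Lib.MP_0dccba_ag.CanonicalDegreeOld
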