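import Pool.Agent.ShghI.WinB
import Pool.Agent.ShghJ.Tr
import Pool.Agent.ShghJ.CombD5

/-!
# The conjecture in large degrees and for spread-out multiplicities, relative to a non-special part

`P 0, ..., P (s - 1)` are points of the affine plane over a field `k` whose `2 s` coordinates are
algebraically independent over the prime field. We consider curves of degree `δ` with multiplicities
`≥ μ i` at `P i`, that is, the divisor class `D = δ H - Σ μ_i E_i` on the blow-up. The characteristic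
of `k` is `0` or larger than `δ`.
-/

namespace Pool.Agent.Lib.MP_0dccba_ag.LargeDegree

open MvPolynomial

/-- `H⁰(X, D)`: the polynomials of degree `≤ δ` with multiplicity `≥ μ i` at the point `P i`. -/
def sections {k : Type*} [Field k] {s : ℕ} (P : Fin s → Fin 2 → k) (δ : ℕ) (μ : Fin s → ℕ) :
    Submodule k (MvPolynomial (Fin 2) k) where
  carrier := {f | f.totalDegree ≤ δ ∧ ∀ i, f ∈ (Ideal.span {X 0 - C (P i 0), X 1 - C (P i 1)} :
    Ideal (MvPolynomial (Fin 2) k)) ^ μ i}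
  add_mem' := fun {f g} hf hg => ⟨(totalDegree_add f g).trans (max_le hf.1 hg.1),
    fun i => Ideal.add_mem _ (hf.2 i) (hg.2 i)⟩
  zero_mem' := ⟨by simp, fun i => Ideal.zero_mem _⟩
  smul_mem' := fun c f hf => ⟨(totalDegree_smul_le c f).trans hf.1, fun i => by
    rw [smul_eq_C_mul]
    exact Ideal.mul_mem_left _ _ (hf.2 i)⟩

/-- The Euler characteristic `χ(D) = (δ + 1)(δ + 2) / 2 - Σ μ_i (μ_i + 1) / 2`. -/
def chi {s : ℕ} (δ : ℕ) (μ : Fin s → ℕ) : ℤ :=
  ((δ + 2).choose 2 : ℤ) - ∑ i, ((μ i + 1).choose 2 : ℤ)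

/-- The multiplicities `μ i` for `i` in `A`, and `0` for the other points: the class `D_A`. -/
def on {s : ℕ} (A : Finset (Fin s)) (μ : Fin s → ℕ) : Fin s → ℕ :=
  fun i => if i ∈ A then μ i else 0

/-- The number of conditions imposed by the points outside of `A` of multiplicity less than `m`:
the sum of `μ_j (μ_j + 1) / 2` over these points. -/
def mass {s : ℕ} (A : Finset (Fin s)) (μ : Fin s → ℕ) (m : ℕ) : ℤ :=
  ∑ j with j ∉ A ∧ μ j < m, ((μ j + 1).choose 2 : ℤ)

theorem sections_eq {k : Type*} [Field k] {s : ℕ} (P : Fin s → Fin 2 → k) (δ : ℕ)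
    (μ : Fin s → ℕ) : sections P δ μ = ShghT.LS δ μ P := rfl

theorem val_split {s : ℕ} (A : Finset (Fin s)) (μ : Fin s → ℕ) :
    Finset.univ.val.map μ = A.val.map μ + (Finset.univ \ A).val.map μ := by
  classical
  have h1 : (Finset.univ : Finset (Fin s)).val = A.val + (Finset.univ \ A).val := by
    have : (Finset.univ : Finset (Fin s)) =
        A.disjUnion (Finset.univ \ A) Finset.disjoint_sdiff := by
      rw [Finset.disjUnion_eq_union, Finset.union_sdiff_of_subset (Finset.subset_univ A)]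
    conv_lhs => rw [this]
    rfl
  rw [h1, Multiset.map_add]

theorem mass_eq {s : ℕ} (A : Finset (Fin s)) (μ : Fin s → ℕ) (m : ℕ) :
    mass A μ m = (ShghJ.TT (((Finset.univ \ A).val.map μ).filter (fun j => j < m)) : ℤ) := by
  classical
  have h1 : ((Finset.univ \ A).val.map μ).filter (fun j => j < m) =
      (Finset.univ.filter (fun j => j ∉ A ∧ μ j < m)).val.map μ := by
    rw [Multiset.filter_map]
    congr 1
    have h2 : (Finset.univ.filter (fun j : Fin s => j ∉ A ∧ μ j < m)) =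
        (Finset.univ \ A).filter (fun j => μ j < m) := by
      ext j
      simp
    rw [h2]
    rfl
  rw [h1, ShghJ.tr_TT]
  unfold mass
  push_cast
  rfl

/-- Let `A` be a set of points, `D_A = δ H - Σ_(i ∈ A) μ_i E_i`, and let `N` be a natural number with
(1) `2 Σ_(i ∈ A) μ_i + N ≤ δ`, or
(2) `(N + 3 κ + 1) (δ + 1) ≤ 2 χ(D_A)` where `M, κ ≥ 1`, `μ_i ≤ M` for all `i ∉ A`, and
`3 M δ ≤ κ²` (or `25 M (δ - μ_p) ≤ κ²` and `μ_p + κ ≤ δ` for some `p ∈ A`), and `D_A` is
non-special, `h⁰(D_A) = χ(D_A)` (for example `18 μ_i² ≤ 5 χ(D_A)` for all `i ∈ A`).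
If `72 m² ≤ N` for the multiplicity `m` of every point outside of `A`, or
`1275 m² ≤ max (40 |χ(D)|, 2 N) + 5 (sum of μ_j (μ_j + 1) / 2 over all j ∉ A with μ_j < m)`
for the multiplicity `m` of every point outside of `A` with `m ≥ 2`, then
`h⁰(D) = max (0, χ(D))`. -/
theorem result {k : Type*} [Field k] {s : ℕ} (P : Fin s → Fin 2 → k)
    (hP : AlgebraicIndependent (⊥ : Subfield k) (fun ij : Fin s × Fin 2 => P ij.1 ij.2))
    (δ : ℕ) (hchar : ∀ n : ℕ, 1 ≤ n → n ≤ δ → (n : k) ≠ 0) (μ : Fin s → ℕ)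
    (A : Finset (Fin s)) (N : ℕ)
    (hA : 2 * ∑ i ∈ A, μ i + N ≤ δ ∨
      ∃ M κ : ℕ, 1 ≤ M ∧ 1 ≤ κ ∧ (∀ i, i ∉ A → μ i ≤ M) ∧
        (3 * M * δ ≤ κ ^ 2 ∨ ∃ p ∈ A, μ p + κ ≤ δ ∧ 25 * M * (δ - μ p) ≤ κ ^ 2) ∧
        ((N : ℤ) + 3 * κ + 1) * (δ + 1) ≤ 2 * chi δ (on A μ) ∧
        ((Module.finrank k (sections P δ (on A μ)) : ℤ) = chi δ (on A μ) ∨
          ∀ i ∈ A, 18 * (μ i : ℤ) ^ 2 ≤ 5 * chi δ (on A μ)))
    (hm : (∀ i, i ∉ A → 72 * μ i ^ 2 ≤ N) ∨ ∀ i, i ∉ A → 2 ≤ μ i → 1275 * (μ i : ℤ) ^ 2 ≤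
      max (40 * |chi δ μ|) (2 * (N : ℤ)) + 5 * mass A μ (μ i)) :
    (Module.finrank k (sections P δ μ) : ℤ) = max 0 (chi δ μ) := by
  classical
  have hF0 := ShghJ.tr_char hchar
  have HD := ShghJ.hfunD_hF (⊥ : Subfield k) δ hF0
  set F := (⊥ : Subfield k) with hF
  set W : Multiset ℕ := A.val.map μ with hW
  set S : Multiset ℕ := (Finset.univ \ A).val.map μ with hS
  have hsp : Finset.univ.val.map μ = W + S := val_split A μ
  have hWs : W.sum = ∑ i ∈ A, μ i := rfl
  have e1 : Module.finrank k (sections P δ μ) = ShghJ.hF F δ (W + S) := by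
    rw [sections_eq, ← hsp]
    exact ShghJ.finrank_LS_eq_hF δ μ P hP
  have e2 : chi δ μ = (ShghJ.T (δ + 1) : ℤ) - ShghJ.TT (W + S) := by
    rw [← hsp]
    exact ShghJ.tr_chi δ μ
  have e3 : Module.finrank k (sections P δ (on A μ)) = ShghJ.hF F δ W := by
    rw [sections_eq, hW]
    exact ShghJ.tr_hF_ite δ HD.toHFun μ P hP A
  have e4 : chi δ (on A μ) = (ShghJ.T (δ + 1) : ℤ) - ShghJ.TT W := by
    have h0 : ShghJ.TT (Multiset.replicate (Finset.univ \ A).card 0) = 0 := by
      rw [ShghJ.TT, Multiset.map_replicate, Multiset.sum_replicate]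
      simp [ShghJ.T]
    have h1 := ShghJ.tr_chi δ (on A μ)
    unfold on at h1 ⊢
    rw [ShghJ.tr_ite Finset.univ A (Finset.subset_univ A), ShghJ.TT_add, h0, zero_add] at h1
    exact h1
  have hm' : (∀ x ∈ S, 72 * x ^ 2 ≤ N) ∨ ∀ x ∈ S, 2 ≤ x → 1275 * (x : ℤ) ^ 2 ≤
      max (40 * |(ShghJ.T (δ + 1) : ℤ) - ShghJ.TT (W + S)|) (2 * (N : ℤ)) +
        5 * ShghJ.TT (S.filter (fun j => j < x)) := by
    rcases hm with hm | hm
    · left
      intro x hx
      obtain ⟨i, hi, rfl⟩ := Multiset.mem_map.1 hx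
      have hi' : i ∈ Finset.univ \ A := hi
      exact hm i (Finset.mem_sdiff.1 hi').2
    · right
      intro x hx h2
      obtain ⟨i, hi, rfl⟩ := Multiset.mem_map.1 hx
      have hi' : i ∈ Finset.univ \ A := hi
      have h3 := hm i (Finset.mem_sdiff.1 hi').2 h2
      rw [mass_eq, e2] at h3
      exact h3
  have key : ShghJ.hF F δ (W + S) = ShghJ.T (δ + 1) - ShghJ.TT (W + S) := by
    rcases hA with hA | ⟨M, κ, hM, hκ, hμ, hc, hroom, hK⟩
    · rw [← hWs] at hA
      exact ShghI.hF_case2 F δ hF0 N W S hA hm'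
    · rw [e4] at hroom
      have hK' : ShghJ.hF F δ W + ShghJ.TT W = ShghJ.T (δ + 1) := by
        rcases hK with hK | hK
        · rw [e3, e4] at hK
          have : (ShghJ.hF F δ W : ℤ) + ShghJ.TT W = ShghJ.T (δ + 1) := by linarith
          exact_mod_cast this
        · obtain ⟨M1, h1, h2⟩ := ShghI.exists_top W
          have h3 : 18 * (M1 : ℤ) ^ 2 ≤ 5 * chi δ (on A μ) := by
            rcases h2 with h2 | h2
            · rw [h2, e4]
              have h4 : (0 : ℤ) ≤ ((N : ℤ) + 3 * κ + 1) * (δ + 1) := by positivity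
              push_cast
              linarith
            · obtain ⟨i, hi, hi2⟩ := Multiset.mem_map.1 h2
              rw [← hi2]
              exact hK i hi
          have h5 := (ShghJ.winD δ (ShghJ.hF F δ) HD M1 0 W (by simp) h1).2
          rw [zero_add, Multiset.sum_zero] at h5
          refine h5 ?_
          rw [e4] at h3
          push_cast
          linarith
      have hroom' : 2 * ShghJ.TT W + (N + 3 * κ + 1) * (δ + 1) ≤ 2 * ShghJ.T (δ + 1) := by
        have : 2 * (ShghJ.TT W : ℤ) + (N + 3 * κ + 1) * (δ + 1) ≤ 2 * ShghJ.T (δ + 1) := by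
          linarith
        exact_mod_cast this
      refine ShghI.hF_rel_cond F δ hF0 M N κ W S hK' hM hκ ?_ ?_ hroom' ?_
      · rcases hc with hc | ⟨p, hp, h1, h2⟩
        · exact Or.inl hc
        · exact Or.inr ⟨μ p, Multiset.mem_map_of_mem μ hp, h1, h2⟩
      · intro x hx
        obtain ⟨i, hi, rfl⟩ := Multiset.mem_map.1 hx
        have hi' : i ∈ Finset.univ \ A := hi
        exact hμ i (Finset.mem_sdiff.1 hi').2
      · rcases hm' with hm' | hm'
        · left
          intro x hx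
          have := hm' x hx
          omega
        · exact Or.inr hm'
  rw [e1, e2, key]
  omega

end Pool.Agent.Lib.MP_0dccba_ag.LargeDegree
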