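import Pool.Agent.ShghC.MainC

/-!
# Nine dominant multiplicities: the exact dimension

`P 0, ..., P (s - 1)` are points of the affine plane over a field `k` whose `2 s` coordinates are
algebraically independent over the prime field. We consider curves of degree `δ` with multiplicities
`≥ μ i` at `P i`, that is, the divisor class `D = δ H - Σ μ_i E_i` on the blow-up `X`.
-/

namespace Pool.Agent.Results.MP_0dccba_ag.NineDominant

open MvPolynomial

/-- `H⁰(X, D)`: the polynomials of degree `≤ δ` with multiplicity `≥ μ i` at the point `P i`. -/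
def sections {k : Type*} [Field k] {s : ℕ} (P : Fin s → Fin 2 → k) (δ : ℕ) (μ : Fin s → ℕ) :
    Submodule k (MvPolynomial (Fin 2) k) where
  carrier := {f | f.totalDegree ≤ δ ∧ ∀ i, f ∈ (Ideal.span {X 0 - C (P i 0), X 1 - C (P i 1)} :
    Ideal (MvPolynomial (Fin 2) k)) ^ μ i}
  add_mem' := fun {f g} hf hg => ⟨(totalDegree_add f g).trans (max_le hf.1 hg.1),
    fun i => Ideal.add_mem _ (hf.2 i) (hg.2 i)⟩
  zero_mem' := ⟨by simp, fun i => Ideal.zero_mem _⟩
  smul_mem' := fun c f hf => ⟨(totalDegree_smul_le c f).trans hf.1, fun i => by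
    rw [smul_eq_C_mul]
    exact Ideal.mul_mem_left _ _ (hf.2 i)⟩

/-- The Euler characteristic `χ(D) = (δ + 1)(δ + 2) / 2 - Σ μ_i (μ_i + 1) / 2`. -/
def chi {s : ℕ} (δ : ℕ) (μ : Fin s → ℕ) : ℤ :=
  ((δ + 2).choose 2 : ℤ) - ∑ i, ((μ i + 1).choose 2 : ℤ)

/-- `D` is the class of a prime divisor: there is an irreducible polynomial of degree `δ` which has
multiplicity exactly `μ i` at `P i`. -/
def IsPrimeClass {k : Type*} [Field k] {s : ℕ} (P : Fin s → Fin 2 → k) (δ : ℕ) (μ : Fin s → ℕ) :
    Prop :=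
  ∃ f : MvPolynomial (Fin 2) k, Irreducible f ∧ f.totalDegree = δ ∧
    ∀ i, f ∈ (Ideal.span {X 0 - C (P i 0), X 1 - C (P i 1)} : Ideal (MvPolynomial (Fin 2) k)) ^ μ i ∧
      f ∉ (Ideal.span {X 0 - C (P i 0), X 1 - C (P i 1)} :
        Ideal (MvPolynomial (Fin 2) k)) ^ (μ i + 1)

/-- `D` is standard with respect to the nine points `c`: no other multiplicity is larger than one of
the nine, and the sum of any three of the nine is at most `δ`. -/
def IsStandard {s : ℕ} (c : Fin 9 → Fin s) (δ : ℕ) (μ : Fin s → ℕ) : Prop :=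
  (∀ i, i ∉ Set.range c → ∀ l, μ i ≤ μ (c l)) ∧
    ∀ i j l, i ≠ j → i ≠ l → j ≠ l → μ (c i) + μ (c j) + μ (c l) ≤ δ

theorem sections_eq {k : Type*} [Field k] {s : ℕ} (P : Fin s → Fin 2 → k) (δ : ℕ)
    (μ : Fin s → ℕ) : sections P δ μ = ShghT.LS δ μ P := rfl

/-- Suppose that all multiplicities except those of nine points `P (c 0), ..., P (c 8)` are small:
either `D` is standard and every other multiplicity is at most two or at most the fifth root of each
of the nine, or `D` is the class of a prime divisor and every other multiplicity is at most two. Then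
`h⁰(D) = max (0, χ(D))`. -/
theorem result {k : Type*} [Field k] {s : ℕ} (P : Fin s → Fin 2 → k)
    (hP : AlgebraicIndependent (⊥ : Subfield k) (fun ij : Fin s × Fin 2 => P ij.1 ij.2))
    (δ : ℕ) (μ : Fin s → ℕ) (c : Fin 9 → Fin s) (hc : Function.Injective c)
    (h : (IsStandard c δ μ ∧ ∀ i, i ∉ Set.range c → μ i ≤ 2 ∨ ∀ l, μ i ^ 5 ≤ μ (c l)) ∨
      (IsPrimeClass P δ μ ∧ ∀ i, i ∉ Set.range c → μ i ≤ 2)) :
    (Module.finrank k (sections P δ μ) : ℤ) = max 0 (chi δ μ) := by
  rw [sections_eq]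
  rcases h with ⟨⟨hmax, hstd⟩, h⟩ | ⟨⟨f, hf, hdeg, hmul⟩, h⟩
  · refine ShghT.final_W P hP δ μ c hc hmax hstd (Or.inr ?_)
    by_cases h2 : ∀ i, i ∉ Set.range c → μ i ≤ 2
    · exact Or.inl h2
    · refine Or.inr fun i hi l => ?_
      push Not at h2
      obtain ⟨i₀, hi₀, h3⟩ := h2
      rcases h i hi with h4 | h4
      · rcases h i₀ hi₀ with h5 | h5
        · omega
        · have h6 : 3 ^ 5 ≤ μ i₀ ^ 5 := Nat.pow_le_pow_left h3 5
          have h7 : μ i ^ 5 ≤ 2 ^ 5 := Nat.pow_le_pow_left h4 5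
          have h8 := h5 l
          omega
      · exact h4 l
  · have hs : 9 ≤ s := by simpa using Fintype.card_le_of_injective c hc
    have hcard : (Finset.univ.filter fun i => 3 ≤ μ i).card ≤ 9 := by
      have h1 : (Finset.univ.filter fun i => 3 ≤ μ i) ⊆ Finset.univ.image c := by
        intro i hi
        rw [Finset.mem_filter] at hi
        by_contra h2
        have h3 : i ∉ Set.range c := by
          rintro ⟨l, rfl⟩
          exact h2 (Finset.mem_image.2 ⟨l, Finset.mem_univ _, rfl⟩)
        have := h i h3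
        omega
      refine (Finset.card_le_card h1).trans (Finset.card_image_le.trans ?_)
      simp
    obtain ⟨T, -⟩ := ShghT.exists_tri (K := k)
      (fun t => ![if t = 1 then 1 else 0, if t = 2 then 1 else 0]) (by simp)
    have h1 := ShghT.prime_W hs δ P hP μ hcard f hdeg.le
      ⟨T, T.irreducible_hg_of_irreducible hdeg hf⟩ (fun i => (hmul i).1) (fun i => (hmul i).2)
    have h2 : (0 : ℤ) ≤ Module.finrank k (ShghT.LS δ μ P) := by positivity
    rw [h1] at h2
    rw [h1]
    exact (max_eq_right h2).symm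

end Pool.Agent.Results.MP_0dccba_ag.NineDominant
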