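import Pool.Agent.ShghJ.GeoD
import Pool.Agent.ShghJ.Tr
import Pool.Agent.ShghJ.MinD

/-!
# The structure of special linear systems through generic points

`P 0, ..., P (s - 1)` are points of the affine plane over a field `k` whose `2 s` coordinates are
algebraically independent over the prime field. We consider curves of degree `δ` with multiplicities
`≥ μ i` at `P i`, that is, the divisor class `D = δ H - Σ μ_i E_i` on the blow-up. The characteristic
of `k` is `0` or larger than `δ`.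
-/

namespace Pool.Agent.Lib.MP_0dccba_ag.SpecialStructure

open MvPolynomial

/-- `H⁰(X, D)`: the polynomials of degree `≤ δ` with multiplicity `≥ μ i` at the point `P i`. -/
def sections {k : Type*} [Field k] {s : ℕ} (P : Fin s → Fin 2 → k) (δ : ℕ) (μ : Fin s → ℕ) :
    Submodule k (MvPolynomial (Fin 2) k) where
  carrier := {f | f.totalDegree ≤ δ ∧ ∀ i, f ∈ (Ideal.span {X 0 - C (P i 0), X 1 - C (P i 1)} :
    Ideal (MvPolynomial (Fin 2) k)) ^ μ i}
  add_mem' := fun {f g} hf hg => ⟨(totalDegree_add f g).trans (max_le hf.1 hg.1),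
    fun i => Ideal.add_mem _ (hf.2 i) (hg.2 i)⟩
  zero_mem' := ⟨by simp, fun i => Ideal.zero_mem _⟩
  smul_mem' := fun c f hf => ⟨(totalDegree_smul_le c f).trans hf.1, fun i => by
    rw [smul_eq_C_mul]
    exact Ideal.mul_mem_left _ _ (hf.2 i)⟩

/-- The Euler characteristic `χ(D) = (δ + 1)(δ + 2) / 2 - Σ μ_i (μ_i + 1) / 2`. -/
def chi {s : ℕ} (δ : ℕ) (μ : Fin s → ℕ) : ℤ :=
  ((δ + 2).choose 2 : ℤ) - ∑ i, ((μ i + 1).choose 2 : ℤ)

/-- The multiplicities `μ i` for `i` in `U`, and `0` for the other points. -/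
def on {s : ℕ} (U : Finset (Fin s)) (μ : Fin s → ℕ) : Fin s → ℕ :=
  fun i => if i ∈ U then μ i else 0

theorem sections_eq {k : Type*} [Field k] {s : ℕ} (P : Fin s → Fin 2 → k) (δ : ℕ)
    (μ : Fin s → ℕ) : sections P δ μ = ShghT.LS δ μ P := rfl

theorem chi_on {s : ℕ} (δ : ℕ) (μ : Fin s → ℕ) (U : Finset (Fin s)) :
    chi δ (on U μ) = (ShghJ.T (δ + 1) : ℤ) - ShghJ.TT (U.val.map μ) := by
  classical
  have h0 : ShghJ.TT (Multiset.replicate (Finset.univ \ U).card 0) = 0 := by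
    rw [ShghJ.TT, Multiset.map_replicate, Multiset.sum_replicate]
    simp [ShghJ.T]
  have h1 := ShghJ.tr_chi δ (on U μ)
  unfold on at h1 ⊢
  rw [ShghJ.tr_ite Finset.univ U (Finset.subset_univ U), ShghJ.TT_add, h0, zero_add] at h1
  exact h1

theorem map_lt {s : ℕ} (μ : Fin s → ℕ) {V U : Finset (Fin s)} (h : V ⊂ U) :
    V.val.map μ < U.val.map μ := by
  have h1 : V.val ≤ U.val := Finset.val_le_iff.2 h.1
  refine lt_of_le_of_ne (Multiset.map_le_map h1) fun h2 => ?_
  have h3 := congrArg Multiset.card h2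
  rw [Multiset.card_map, Multiset.card_map] at h3
  exact absurd (Finset.card_lt_card h) (by
    have h4 : V.card = U.card := h3
    omega)

/-- Suppose that `h⁰(D) > max (0, χ(D))`. For a set `U` of points let `D_U = δ H - Σ_(i ∈ U) μ_i E_i`.
(1) There are `m ≥ 2` and a set `B` of at least one and at most `11` points, all of multiplicity
between `m` and `41 m / 10`, such that all other points have multiplicity at most `m` and the class
`A = D + Σ_(i ∈ B) μ_i E_i` satisfies `h⁰(A) = χ(A)` and `0 < χ(A) < 18 m² / 5`; moreover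
`h⁰(D) - χ(D) ≤ (1681 / 200) m²`.
(2) There is a set `U` of points such that `h⁰(D_U) > max (0, χ(D_U))` and `h⁰(D_V) = χ(D_V)` for
all proper subsets `V` of `U`. For such a `U` and each `i` in `U` one has `μ_i ≥ 2`,
`h⁰(D_U) - χ(D_U) ≤ μ_i (μ_i - 1) / 2` and, for `V = U \ {i}` and `M` the largest multiplicity
in `U`, `μ_i + 1 ≤ χ(D_V) ≤ (μ_i - 1)(82 M + 40 - 10 μ_i) / 20`. -/
theorem result {k : Type*} [Field k] {s : ℕ} (P : Fin s → Fin 2 → k)
    (hP : AlgebraicIndependent (⊥ : Subfield k) (fun ij : Fin s × Fin 2 => P ij.1 ij.2))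
    (δ : ℕ) (hchar : ∀ n : ℕ, 1 ≤ n → n ≤ δ → (n : k) ≠ 0) (μ : Fin s → ℕ)
    (hspecial : max 0 (chi δ μ) < (Module.finrank k (sections P δ μ) : ℤ)) :
    (∃ (m : ℕ) (B : Finset (Fin s)), 2 ≤ m ∧ 1 ≤ B.card ∧ B.card ≤ 11 ∧
      (∀ i ∈ B, m ≤ μ i ∧ 10 * μ i ≤ 41 * m) ∧ (∀ i, i ∉ B → μ i ≤ m) ∧
      (Module.finrank k (sections P δ (on (Finset.univ \ B) μ)) : ℤ) =
        chi δ (on (Finset.univ \ B) μ) ∧
      0 < chi δ (on (Finset.univ \ B) μ) ∧ 5 * chi δ (on (Finset.univ \ B) μ) < 18 * (m : ℤ) ^ 2 ∧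
      200 * ((Module.finrank k (sections P δ μ) : ℤ) - chi δ μ) ≤ 1681 * (m : ℤ) ^ 2) ∧
    (∃ U : Finset (Fin s),
      max 0 (chi δ (on U μ)) < (Module.finrank k (sections P δ (on U μ)) : ℤ) ∧
      ∀ V ⊂ U, (Module.finrank k (sections P δ (on V μ)) : ℤ) = chi δ (on V μ)) ∧
    (∀ U : Finset (Fin s),
      max 0 (chi δ (on U μ)) < (Module.finrank k (sections P δ (on U μ)) : ℤ) →
      (∀ V ⊂ U, (Module.finrank k (sections P δ (on V μ)) : ℤ) = chi δ (on V μ)) →
      ∀ i ∈ U, 2 ≤ μ i ∧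
        (Module.finrank k (sections P δ (on U μ)) : ℤ) - chi δ (on U μ) ≤ ((μ i).choose 2 : ℤ) ∧
        (μ i : ℤ) + 1 ≤ chi δ (on (U.erase i) μ) ∧
        ∀ M : ℕ, (∀ j ∈ U, μ j ≤ M) →
          20 * chi δ (on (U.erase i) μ) ≤ ((μ i : ℤ) - 1) * (82 * M + 40 - 10 * μ i)) := by
  classical
  have HD := ShghJ.hfunD_hF (⊥ : Subfield k) δ (ShghJ.tr_char hchar)
  set F := (⊥ : Subfield k) with hF
  set S : Multiset ℕ := Finset.univ.val.map μ with hS
  have eon : ∀ U : Finset (Fin s), Module.finrank k (sections P δ (on U μ)) =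
      ShghJ.hF F δ (U.val.map μ) := by
    intro U
    rw [sections_eq]
    exact ShghJ.tr_hF_ite δ HD.toHFun μ P hP U
  have e1 : Module.finrank k (sections P δ μ) = ShghJ.hF F δ S := by
    rw [sections_eq]
    exact ShghJ.finrank_LS_eq_hF δ μ P hP
  have e2 : chi δ μ = (ShghJ.T (δ + 1) : ℤ) - ShghJ.TT S := ShghJ.tr_chi δ μ
  have hsp1 : 1 ≤ ShghJ.hF F δ S := by
    rw [e1] at hspecial
    have := (le_max_left (0 : ℤ) _).trans_lt hspecial
    exact_mod_cast this
  have hsp2 : ShghJ.T (δ + 1) < ShghJ.hF F δ S + ShghJ.TT S := by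
    rw [e1, e2] at hspecial
    have := (le_max_right (0 : ℤ) _).trans_lt hspecial
    have h3 : (ShghJ.T (δ + 1) : ℤ) < (ShghJ.hF F δ S : ℤ) + ShghJ.TT S := by linarith
    exact_mod_cast h3
  refine ⟨?_, ?_, ?_⟩
  · have hm : ((S.sort (· ≤ ·) : List ℕ) : Multiset ℕ) = S := Multiset.sort_eq S _
    obtain ⟨A, m, B, hAB, hm2, hA1, hA2, hA3, hlen, hB, hex⟩ :=
      ShghJ.structD δ (ShghJ.hF F δ) HD (S.sort (· ≤ ·)) (Multiset.pairwise_sort S _)
        (by rw [hm]; exact hsp1) (by rw [hm]; exact hsp2)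
    have hsp : Finset.univ.val.map μ = (A : Multiset ℕ) + ((m :: B : List ℕ) : Multiset ℕ) := by
      rw [Multiset.coe_add, ← hAB, hm]
    obtain ⟨U, -, hU, hV⟩ := ShghJ.tr_split μ (A : Multiset ℕ) Finset.univ _ hsp
    have hsorted := Multiset.pairwise_sort S (· ≤ ·)
    rw [hAB, List.pairwise_append] at hsorted
    obtain ⟨-, hmB, hAm⟩ := hsorted
    rw [List.pairwise_cons] at hmB
    have hUU : Finset.univ \ (Finset.univ \ U) = U := by
      rw [sdiff_sdiff_right_self, Finset.inf_eq_inter, Finset.univ_inter]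
    have e3 : Module.finrank k (sections P δ (on (Finset.univ \ (Finset.univ \ U)) μ)) =
        ShghJ.hF F δ (A : Multiset ℕ) := by
      rw [hUU, eon, hU]
    have e4 : chi δ (on (Finset.univ \ (Finset.univ \ U)) μ) =
        (ShghJ.T (δ + 1) : ℤ) - ShghJ.TT (A : Multiset ℕ) := by
      rw [hUU, chi_on, hU]
    have e5 : (ShghJ.hF F δ (A : Multiset ℕ) : ℤ) = (ShghJ.T (δ + 1) : ℤ) -
        ShghJ.TT (A : Multiset ℕ) := by
      have : (ShghJ.hF F δ (A : Multiset ℕ) : ℤ) + ShghJ.TT (A : Multiset ℕ) =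
          ShghJ.T (δ + 1) := by exact_mod_cast hA1
      linarith
    have hcard : (Finset.univ \ U).card = (m :: B).length := by
      have h := congrArg Multiset.card hV
      rw [Multiset.card_map, Multiset.coe_card] at h
      exact h
    refine ⟨m, Finset.univ \ U, hm2, ?_, ?_, ?_, ?_, ?_, ?_, ?_, ?_⟩
    · rw [hcard]
      simp
    · rw [hcard]
      exact hlen
    · intro i hi
      have h1 : μ i ∈ ((m :: B : List ℕ) : Multiset ℕ) := by
        rw [← hV]
        exact Multiset.mem_map_of_mem μ hi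
      rw [Multiset.mem_coe, List.mem_cons] at h1
      rcases h1 with h1 | h1
      · omega
      · exact hB _ h1
    · intro i hi
      have hi' : i ∈ U := by
        by_contra h
        exact hi (by simp [h])
      have h1 : μ i ∈ (A : Multiset ℕ) := by
        rw [← hU]
        exact Multiset.mem_map_of_mem μ hi'
      rw [Multiset.mem_coe] at h1
      exact hAm _ h1 m (List.mem_cons_self)
    · rw [e3, e4, e5]
    · rw [e4, ← e5]
      exact_mod_cast hA2
    · rw [e4, ← e5]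
      exact_mod_cast hA3
    · rw [e1, e2]
      rw [hm] at hex
      have h1 : 200 * (ShghJ.hF F δ S + ShghJ.TT S) ≤ 1681 * m ^ 2 + 200 * ShghJ.T (δ + 1) := by
        omega
      have h2 : 200 * ((ShghJ.hF F δ S : ℤ) + ShghJ.TT S) ≤
          1681 * (m : ℤ) ^ 2 + 200 * ShghJ.T (δ + 1) := by exact_mod_cast h1
      linarith
  · obtain ⟨D, hDS, hD1, hD2, hns, -⟩ := HD.minD S hsp1 hsp2
    obtain ⟨B, hB⟩ := Multiset.le_iff_exists_add.1 hDS
    obtain ⟨U, -, hU, -⟩ := ShghJ.tr_split μ D Finset.univ B hB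
    refine ⟨U, ?_, ?_⟩
    · rw [eon, chi_on, hU, max_lt_iff]
      constructor
      · exact_mod_cast hD1
      · have : (ShghJ.T (δ + 1) : ℤ) < (ShghJ.hF F δ D : ℤ) + ShghJ.TT D := by exact_mod_cast hD2
        linarith
    · intro V hV
      have h1 := (hns (V.val.map μ) (by rw [← hU]; exact map_lt μ hV)).2
      rw [eon, chi_on]
      have : (ShghJ.hF F δ (V.val.map μ) : ℤ) + ShghJ.TT (V.val.map μ) = ShghJ.T (δ + 1) := by
        exact_mod_cast h1
      linarith
  · intro U hU1 hU2 i hi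
    rw [eon, chi_on, max_lt_iff] at hU1
    have h1 : 1 ≤ ShghJ.hF F δ (U.val.map μ) := by exact_mod_cast hU1.1
    have h2 : ShghJ.T (δ + 1) < ShghJ.hF F δ (U.val.map μ) + ShghJ.TT (U.val.map μ) := by
      have : (ShghJ.T (δ + 1) : ℤ) < (ShghJ.hF F δ (U.val.map μ) : ℤ) +
          ShghJ.TT (U.val.map μ) := by linarith [hU1.2]
      exact_mod_cast this
    obtain ⟨D, hDS, hD1, hD2, hns, hm⟩ := HD.minD (U.val.map μ) h1 h2
    obtain ⟨B, hB⟩ := Multiset.le_iff_exists_add.1 hDS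
    obtain ⟨V, hVU, hV, -⟩ := ShghJ.tr_split μ D U B hB
    have hVeq : V = U := by
      by_contra hne
      have h3 := hU2 V (Finset.ssubset_iff_subset_ne.2 ⟨hVU, hne⟩)
      rw [eon, chi_on, hV] at h3
      have h4 : (ShghJ.T (δ + 1) : ℤ) < (ShghJ.hF F δ D : ℤ) + ShghJ.TT D := by exact_mod_cast hD2
      linarith
    rw [hVeq] at hV
    have hi' : μ i ∈ D := by
      rw [← hV]
      exact Multiset.mem_map_of_mem μ hi
    have her : (U.erase i).val.map μ = D.erase (μ i) := by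
      rw [Finset.erase_val, ← hV]
      exact Multiset.map_erase_of_mem μ U.val hi
    obtain ⟨hm1, hm2, hm3, hm4⟩ := hm (μ i) hi'
    have hns' := (hns (D.erase (μ i)) (Multiset.erase_lt.2 hi')).2
    have hchi : chi δ (on (U.erase i) μ) = (ShghJ.hF F δ (D.erase (μ i)) : ℤ) := by
      rw [chi_on, her]
      have : (ShghJ.hF F δ (D.erase (μ i)) : ℤ) + ShghJ.TT (D.erase (μ i)) = ShghJ.T (δ + 1) := by
        exact_mod_cast hns'
      linarith
    refine ⟨hm1, ?_, ?_, ?_⟩
    · rw [eon, chi_on, hV]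
      have h5 : (μ i).choose 2 + μ i = ShghJ.T (μ i) := by
        rw [ShghJ.geo_T, Nat.choose_succ_succ' (μ i) 1, Nat.choose_one_right, add_comm]
      have h6 : (ShghJ.hF F δ D : ℤ) + ShghJ.TT D + μ i ≤ ShghJ.T (δ + 1) + ShghJ.T (μ i) := by
        exact_mod_cast hm3
      have h7 : (((μ i).choose 2 : ℕ) : ℤ) + μ i = ShghJ.T (μ i) := by exact_mod_cast h5
      linarith
    · rw [hchi]
      exact_mod_cast hm2
    · intro M hM
      rw [hchi]
      refine hm4 M fun x hx => ?_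
      rw [← hV] at hx
      obtain ⟨j, hj, rfl⟩ := Multiset.mem_map.1 hx
      exact hM j hj

end Pool.Agent.Lib.MP_0dccba_ag.SpecialStructure
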