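import Pool.Agent.ShghH.FinH

/-!
# SHGH in a round cone of divisor classes on the plane blown up at ten generic points

`P 0, ..., P 9` are ten points of the affine plane over a field `k` of characteristic different from
two whose `20` coordinates are algebraically independent over the prime field. We consider curves of
degree `δ` with multiplicities `≥ μ i` at `P i`, that is, the divisor class `D = δ H - Σ μ_i E_i` on
the blow-up `X`.
-/

namespace Pool.Agent.Lib.MP_0dccba_ag.TenPointsConeOld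

open MvPolynomial

/-- `H⁰(X, D)`: the polynomials of degree `≤ δ` with multiplicity `≥ μ i` at the point `P i`. -/
def sections {k : Type*} [Field k] (P : Fin 10 → Fin 2 → k) (δ : ℕ) (μ : Fin 10 → ℕ) :
    Submodule k (MvPolynomial (Fin 2) k) where
  carrier := {f | f.totalDegree ≤ δ ∧ ∀ i, f ∈ (Ideal.span {X 0 - C (P i 0), X 1 - C (P i 1)} :
    Ideal (MvPolynomial (Fin 2) k)) ^ μ i}
  add_mem' := fun {f g} hf hg => ⟨(totalDegree_add f g).trans (max_le hf.1 hg.1),
    fun i => Ideal.add_mem _ (hf.2 i) (hg.2 i)⟩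
  zero_mem' := ⟨by simp, fun i => Ideal.zero_mem _⟩
  smul_mem' := fun c f hf => ⟨(totalDegree_smul_le c f).trans hf.1, fun i => by
    rw [smul_eq_C_mul]
    exact Ideal.mul_mem_left _ _ (hf.2 i)⟩

/-- The Euler characteristic `χ(D) = (δ + 1)(δ + 2) / 2 - Σ μ_i (μ_i + 1) / 2`. -/
def chi (δ : ℕ) (μ : Fin 10 → ℕ) : ℤ :=
  ((δ + 2).choose 2 : ℤ) - ∑ i, ((μ i + 1).choose 2 : ℤ)

/-- `K_X · D = Σ μ_i - 3 δ`. -/
def canonicalDegree (δ : ℕ) (μ : Fin 10 → ℕ) : ℤ := ∑ i, (μ i : ℤ) - 3 * δ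

/-- `D² = δ² - Σ μ_i²`. -/
def selfIntersection (δ : ℕ) (μ : Fin 10 → ℕ) : ℤ := (δ : ℤ) ^ 2 - ∑ i, (μ i : ℤ) ^ 2

/-- `D` is standard: the sum of any three of the multiplicities is at most `δ`. -/
def IsStandard (δ : ℕ) (μ : Fin 10 → ℕ) : Prop :=
  ∀ i j l, i ≠ j → i ≠ l → j ≠ l → μ i + μ j + μ l ≤ δ

/-- `D` is the class of a prime divisor: there is an irreducible polynomial of degree `δ` which has
multiplicity exactly `μ i` at `P i`. -/
def IsPrimeClass {k : Type*} [Field k] (P : Fin 10 → Fin 2 → k) (δ : ℕ) (μ : Fin 10 → ℕ) : Prop :=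
  ∃ f : MvPolynomial (Fin 2) k, Irreducible f ∧ f.totalDegree = δ ∧
    ∀ i, f ∈ (Ideal.span {X 0 - C (P i 0), X 1 - C (P i 1)} : Ideal (MvPolynomial (Fin 2) k)) ^ μ i ∧
      f ∉ (Ideal.span {X 0 - C (P i 0), X 1 - C (P i 1)} :
        Ideal (MvPolynomial (Fin 2) k)) ^ (μ i + 1)

/-- Let `D` be standard or the class of a prime divisor on the plane blown up at ten generic points.
If `h⁰(D) ≠ max (0, χ(D))` then `K_X · D ≥ 5` and `8 (D - K_X)² < (K_X · (D - K_X))²`; here
`(D - K_X)² = D² - 2 K_X · D - 1` and `K_X · (D - K_X) = K_X · D + 1`. -/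
theorem result {k : Type*} [Field k] (h2 : (2 : k) ≠ 0) (P : Fin 10 → Fin 2 → k)
    (hP : AlgebraicIndependent (⊥ : Subfield k) (fun ij : Fin 10 × Fin 2 => P ij.1 ij.2))
    (δ : ℕ) (μ : Fin 10 → ℕ) (hD : IsStandard δ μ ∨ IsPrimeClass P δ μ)
    (hne : (Module.finrank k (sections P δ μ) : ℤ) ≠ max 0 (chi δ μ)) :
    5 ≤ canonicalDegree δ μ ∧
      8 * (selfIntersection δ μ - 2 * canonicalDegree δ μ - 1) < (canonicalDegree δ μ + 1) ^ 2 := by
  have hs : Module.finrank k (sections P δ μ) = Module.finrank k (ShghT.LS δ μ P) := rfl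
  rw [hs] at hne
  have h0 : (0 : ℤ) ≤ Module.finrank k (ShghT.LS δ μ P) := by positivity
  have key4 : 4 < (∑ i, (μ i : ℤ)) - 3 * δ := by
    by_contra h
    rw [not_lt] at h
    apply hne
    rcases hD with hD | ⟨f, hf, hdeg, hmul⟩
    · exact ShghT.std_Z (by norm_num) δ P hP μ hD (Or.inl h)
    · obtain ⟨T, -⟩ := ShghT.exists_tri (K := k)
        (fun t => ![if t = 1 then 1 else 0, if t = 2 then 1 else 0]) (by simp)
      have h1 := ShghT.prime_Z (by norm_num) δ P hP μ f ⟨hdeg.le,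
        ⟨T, T.irreducible_hg_of_irreducible hdeg hf⟩, fun i => (hmul i).1,
        fun i => (hmul i).2⟩ (Or.inl h)
      rw [h1] at h0
      rw [h1]
      exact (max_eq_right h0).symm
  refine ⟨by rw [canonicalDegree]; omega, ?_⟩
  by_contra h8
  rw [not_lt, canonicalDegree, selfIntersection] at h8
  apply hne
  rcases hD with hD | ⟨f, hf, hdeg, hmul⟩
  · have h1 := ShghH.std_H h2 P hP δ μ hD (by omega) h8
    rw [h1] at h0
    rw [h1]
    exact (max_eq_right h0).symm
  · obtain ⟨T, -⟩ := ShghT.exists_tri (K := k)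
      (fun t => ![if t = 1 then 1 else 0, if t = 2 then 1 else 0]) (by simp)
    have h1 := ShghH.prime_H h2 P hP δ μ f ⟨hdeg.le,
      ⟨T, T.irreducible_hg_of_irreducible hdeg hf⟩, fun i => (hmul i).1,
      fun i => (hmul i).2⟩ h8
    rw [h1] at h0
    rw [h1]
    exact (max_eq_right h0).symm

end Pool.Agent.Lib.MP_0dccba_ag.TenPointsConeOld
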