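import Pool.Agent.ShghF.MainG
import Pool.Agent.ShghF.MainR
import Pool.Agent.ShghF.PrimeG

/-!
# The tenth multiplicity

`P 0, ..., P (s - 1)` are points of the affine plane over a field `k` whose `2 s` coordinates are
algebraically independent over the prime field. We consider curves of degree `δ` with multiplicities
`≥ μ i` at `P i`, that is, the divisor class `D = δ H - Σ μ_i E_i` on the blow-up `X`. Nine of the
multiplicities are arbitrary, the others are at most `m` and take `κ` different positive values.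
-/

namespace Pool.Agent.Lib.MP_0dccba_ag.TenthMultiplicityOld

open MvPolynomial

/-- `H⁰(X, D)`: the polynomials of degree `≤ δ` with multiplicity `≥ μ i` at the point `P i`. -/
def sections {k : Type*} [Field k] {s : ℕ} (P : Fin s → Fin 2 → k) (δ : ℕ) (μ : Fin s → ℕ) :
    Submodule k (MvPolynomial (Fin 2) k) where
  carrier := {f | f.totalDegree ≤ δ ∧ ∀ i, f ∈ (Ideal.span {X 0 - C (P i 0), X 1 - C (P i 1)} :
    Ideal (MvPolynomial (Fin 2) k)) ^ μ i}
  add_mem' := fun {f g} hf hg => ⟨(totalDegree_add f g).trans (max_le hf.1 hg.1),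
    fun i => Ideal.add_mem _ (hf.2 i) (hg.2 i)⟩
  zero_mem' := ⟨by simp, fun i => Ideal.zero_mem _⟩
  smul_mem' := fun c f hf => ⟨(totalDegree_smul_le c f).trans hf.1, fun i => by
    rw [smul_eq_C_mul]
    exact Ideal.mul_mem_left _ _ (hf.2 i)⟩

/-- The Euler characteristic `χ(D) = (δ + 1)(δ + 2) / 2 - Σ μ_i (μ_i + 1) / 2`. -/
def chi {s : ℕ} (δ : ℕ) (μ : Fin s → ℕ) : ℤ :=
  ((δ + 2).choose 2 : ℤ) - ∑ i, ((μ i + 1).choose 2 : ℤ)

/-- `D` is standard with respect to the nine points `c`: no other multiplicity is larger than one of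
the nine, and the sum of any three of the nine is at most `δ`. -/
def IsStandard {s : ℕ} (c : Fin 9 → Fin s) (δ : ℕ) (μ : Fin s → ℕ) : Prop :=
  (∀ i, i ∉ Set.range c → ∀ l, μ i ≤ μ (c l)) ∧
    ∀ i j l, i ≠ j → i ≠ l → j ≠ l → μ (c i) + μ (c j) + μ (c l) ≤ δ

/-- The number `κ` of different positive values of the multiplicities outside of the nine. -/
def values {s : ℕ} (c : Fin 9 → Fin s) (μ : Fin s → ℕ) : ℕ :=
  (((Finset.univ \ Finset.univ.image c).image μ).erase 0).card

/-- `D` is the class of a prime divisor: there is an irreducible polynomial of degree `δ` which has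
multiplicity exactly `μ i` at `P i`. -/
def IsPrimeClass {k : Type*} [Field k] {s : ℕ} (P : Fin s → Fin 2 → k) (δ : ℕ) (μ : Fin s → ℕ) :
    Prop :=
  ∃ f : MvPolynomial (Fin 2) k, Irreducible f ∧ f.totalDegree = δ ∧
    ∀ i, f ∈ (Ideal.span {X 0 - C (P i 0), X 1 - C (P i 1)} : Ideal (MvPolynomial (Fin 2) k)) ^ μ i ∧
      f ∉ (Ideal.span {X 0 - C (P i 0), X 1 - C (P i 1)} :
        Ideal (MvPolynomial (Fin 2) k)) ^ (μ i + 1)

/-- `2 p_a(D) - 2 = D² + K · D = δ (δ - 3) - Σ μ_i (μ_i - 1)`. -/
def twiceGenusSubTwo {s : ℕ} (δ : ℕ) (μ : Fin s → ℕ) : ℤ :=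
  (δ : ℤ) * (δ - 3) - ∑ i, (μ i : ℤ) * (μ i - 1)

theorem sections_eq {k : Type*} [Field k] {s : ℕ} (P : Fin s → Fin 2 → k) (δ : ℕ)
    (μ : Fin s → ℕ) : sections P δ μ = ShghT.LS δ μ P := rfl

/-- Nine of the multiplicities are arbitrary, the others are at most `m` and have `κ` different positive
values. Suppose that `D` is standard and that `m ≤ 2`, or each of the nine multiplicities is at least
`m ^ 5`, or `δ ≥ 16200 κ² m⁴`, or (`δ ≥ 16200 κ m²`, `δ - μ (c l) ≥ 40 κ m` for all `l` and
`3 δ - Σ μ (c l) > 44 κ m`); or that `D` is the class of a prime divisor `C` and `m ≤ 2` or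
`2 p_a(C) - 2 ≥ (16200 m⁶)²`. Then `h⁰(D) = max (0, χ(D))`. -/
theorem result {k : Type*} [Field k] {s : ℕ} (P : Fin s → Fin 2 → k)
    (hP : AlgebraicIndependent (⊥ : Subfield k) (fun ij : Fin s × Fin 2 => P ij.1 ij.2))
    (δ : ℕ) (μ : Fin s → ℕ) (c : Fin 9 → Fin s) (hc : Function.Injective c) (m : ℕ)
    (hm : ∀ i, i ∉ Set.range c → μ i ≤ m)
    (h : (IsStandard c δ μ ∧ (m ≤ 2 ∨ (∀ l, m ^ 5 ≤ μ (c l)) ∨
        16200 * values c μ ^ 2 * m ^ 4 ≤ δ ∨
        (16200 * values c μ * m ^ 2 ≤ δ ∧ (∀ l, μ (c l) + 40 * values c μ * m ≤ δ) ∧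
          ∑ l, μ (c l) + 44 * values c μ * m < 3 * δ))) ∨
      (IsPrimeClass P δ μ ∧ (m ≤ 2 ∨ (16200 * m ^ 6) ^ 2 ≤ twiceGenusSubTwo δ μ))) :
    (Module.finrank k (sections P δ μ) : ℤ) = max 0 (chi δ μ) := by
  classical
  rw [sections_eq]
  rcases h with ⟨⟨hmax, hstd⟩, h⟩ | ⟨⟨f, hf, hdeg, hmul⟩, h⟩
  · -- small others
    have small : (∀ i, i ∉ Set.range c → μ i ≤ 2) →
        (Module.finrank k (ShghT.LS δ μ P) : ℤ) = max 0 (chi δ μ) := fun h2 =>
      ShghT.final_W P hP δ μ c hc hmax hstd (Or.inr (Or.inl h2))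
    rcases Nat.eq_zero_or_pos (values c μ) with hv | hv
    · -- no others
      refine small fun i hi => ?_
      have h1 : i ∈ Finset.univ \ Finset.univ.image c := by
        rw [Finset.mem_sdiff]
        refine ⟨Finset.mem_univ _, fun h2 => hi ?_⟩
        obtain ⟨l, -, hl⟩ := Finset.mem_image.1 h2
        exact ⟨l, hl⟩
      have h3 : μ i ∉ (((Finset.univ \ Finset.univ.image c).image μ).erase 0) := by
        rw [values, Finset.card_eq_zero] at hv
        rw [hv]
        exact Finset.notMem_empty _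
      rw [Finset.mem_erase, not_and] at h3
      by_contra h4
      exact h3 (by omega) (Finset.mem_image_of_mem _ h1)
    · rcases h with h | h | h | ⟨h1, h2, h3⟩
      · exact small fun i hi => (hm i hi).trans h
      · exact ShghT.final_W P hP δ μ c hc hmax hstd (Or.inr (Or.inr fun i hi l =>
          (Nat.pow_le_pow_left (hm i hi) 5).trans (h l)))
      · rcases Nat.eq_zero_or_pos m with h0 | h0
        · exact small fun i hi => (hm i hi).trans (by omega)
        · exact ShghF.main_ten P hP δ μ c hc m (values c μ) h0 hv hmax hstd hm le_rfl h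
      · rcases Nat.eq_zero_or_pos m with h0 | h0
        · exact small fun i hi => (hm i hi).trans (by omega)
        · exact ShghF.main_R P hP δ μ c hc m (values c μ) h0 hv hstd hm le_rfl h2 h3 h1
  · have hs : 9 ≤ s := by simpa using Fintype.card_le_of_injective c hc
    have hcard : ∀ n, m ≤ n → (Finset.univ.filter fun i => n < μ i).card ≤ 9 := by
      intro n hn
      have h1 : (Finset.univ.filter fun i => n < μ i) ⊆ Finset.univ.image c := by
        intro i hi
        rw [Finset.mem_filter] at hi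
        by_contra h2
        have h3 : i ∉ Set.range c := by
          rintro ⟨l, rfl⟩
          exact h2 (Finset.mem_image.2 ⟨l, Finset.mem_univ _, rfl⟩)
        have := hm i h3
        omega
      refine (Finset.card_le_card h1).trans (Finset.card_image_le.trans ?_)
      simp
    obtain ⟨T, -⟩ := ShghT.exists_tri (K := k)
      (fun t => ![if t = 1 then 1 else 0, if t = 2 then 1 else 0]) (by simp)
    have h1 : (Module.finrank k (ShghT.LS δ μ P) : ℤ) = chi δ μ := by
      rcases le_or_gt m 2 with h2 | h2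
      · exact ShghT.prime_W hs δ P hP μ (hcard 2 h2) f hdeg.le
          ⟨T, T.irreducible_hg_of_irreducible hdeg hf⟩ (fun i => (hmul i).1) (fun i => (hmul i).2)
      · rcases h with h | h
        · omega
        · refine ShghT.prime_ten hs m (by omega) δ P hP μ (hcard m le_rfl) ?_ f hdeg.le
            ⟨T, T.irreducible_hg_of_irreducible hdeg hf⟩ (fun i => (hmul i).1) (fun i => (hmul i).2)
          rw [twiceGenusSubTwo] at h
          push_cast
          exact h
    have h2 : (0 : ℤ) ≤ Module.finrank k (ShghT.LS δ μ P) := by positivity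
    rw [h1] at h2 ⊢
    exact (max_eq_right h2).symm

end Pool.Agent.Lib.MP_0dccba_ag.TenthMultiplicityOld
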