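import Pool.Agent.ShghP.MainU

/-!
# Unfolding the nef cone of the plane blown up at ten or more generic points

`X` is the blow-up of the plane at `s = 10 + r` generic points `P 0, ..., P (s - 1)`, `K` its canonical class,
`D = (d; m) = d H - Σ m_i E_i` a real class. For a set `J` of indices `i < 9` let `m_i' = - m_i` for `i ∈ J`
and `m_i' = m_i` otherwise, `e = 3 d - Σ_{i < 9} m_i'`, and for an integer `j` let
`T(D) = (d + 3 λ; m_0' + λ, ..., m_8' + λ, |m_9 + 2 j e|, m_10, ..., m_{s-1})`, `λ = 2 j (j e + m_9)`.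
Up to the sign of the multiplicity at `P 9`, `T = (r_F ε_9)^j ε_J` with `F = 3 H - E_0 - ... - E_9`, where `r_F`, `ε_i`
are the reflections in `F` and in `E_i`, and `ε_J` is the product of the `ε_i`, `i ∈ J`.

If `K · D ≤ 0`, `D` is nonnegative on all classes of positive expected dimension (for example if `D`
is nef and `K · D ≤ 0`), and `j ≠ 0` or `J` is empty, then `T(D)` is nef, and if `K · T(D) > 0` then
`T(D) · C > 0` for every curve `C` of `X` other than `E_10, ..., E_{s-1}`.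
-/

namespace Pool.Agent.Lib.MP_0dccba_ag.UnfoldingNefConeOld

open MvPolynomial

/-- The points `P i` of the affine plane are generic: all their coordinates are algebraically independent
over the prime field. -/
def IsGeneric {k : Type*} [Field k] {s : ℕ} (P : Fin s → Fin 2 → k) : Prop :=
  AlgebraicIndependent (⊥ : Subfield k) (fun ij : Fin s × Fin 2 => P ij.1 ij.2)

/-- `f = 0` is a plane curve of degree `δ` (containing the line at infinity `δ - deg f` times) with
multiplicity at least `μ i` at the point `P i`. -/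
def IsCurve {k : Type*} [Field k] {s : ℕ} (P : Fin s → Fin 2 → k) (f : MvPolynomial (Fin 2) k) (δ : ℕ)
    (μ : Fin s → ℕ) : Prop :=
  f ≠ 0 ∧ f.totalDegree ≤ δ ∧
    ∀ i, f ∈ (Ideal.span {X 0 - C (P i 0), X 1 - C (P i 1)} :
      Ideal (MvPolynomial (Fin 2) k)) ^ μ i

/-- `D = d H - Σ m_i E_i` is nef: `D · E_i ≥ 0` and `D · C ≥ 0` for all plane curves `C`. -/
def IsNef {k : Type*} [Field k] {s : ℕ} (P : Fin s → Fin 2 → k) (d : ℝ) (m : Fin s → ℝ) : Prop :=
  (∀ i, 0 ≤ m i) ∧ ∀ (f : MvPolynomial (Fin 2) k) (δ : ℕ) (μ : Fin s → ℕ),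
    IsCurve P f δ μ → ∑ i, m i * μ i ≤ d * δ

/-- `D · C > 0` for all plane curves `C` (of degree `δ ≥ 1`). -/
def IsPosOnCurves {k : Type*} [Field k] {s : ℕ} (P : Fin s → Fin 2 → k) (d : ℝ) (m : Fin s → ℝ) : Prop :=
  ∀ (f : MvPolynomial (Fin 2) k) (δ : ℕ) (μ : Fin s → ℕ),
    IsCurve P f δ μ → 1 ≤ δ → ∑ i, m i * μ i < d * δ

/-- All `m_i ≥ 0`, and `D · L ≥ 0` for all classes `L = a H - Σ ν_i E_i`, `a, ν_i ≥ 0`, of positive
expected dimension `(a + 1)(a + 2)/2 - Σ ν_i (ν_i + 1)/2`. -/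
def IsNumNef {s : ℕ} (d : ℝ) (m : Fin s → ℝ) : Prop :=
  (∀ i, 0 ≤ m i) ∧ ∀ (a : ℕ) (ν : Fin s → ℕ),
    ∑ i, ν i * (ν i + 1) < (a + 1) * (a + 2) → ∑ i, m i * ν i ≤ d * a

/-- The index `i < 9` of one of the first nine points. -/
def idx (r : ℕ) (i : Fin 9) : Fin (10 + r) := Fin.castAdd r i.castSucc

/-- The index `9` of the tenth point. -/
def tenth (r : ℕ) : Fin (10 + r) := Fin.castAdd r 9

/-- `m_i' = - m_i` for `i ∈ J`, `m_i' = m_i` for `i ∉ J` (`i < 9`). -/
noncomputable def flip {r : ℕ} (J : Finset (Fin 9)) (m : Fin (10 + r) → ℝ) (i : Fin 9) : ℝ :=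
  if i ∈ J then - m (idx r i) else m (idx r i)

/-- `e = 3 d - Σ_{i < 9} m_i'`. -/
noncomputable def anti {r : ℕ} (J : Finset (Fin 9)) (d : ℝ) (m : Fin (10 + r) → ℝ) : ℝ :=
  3 * d - ∑ i : Fin 9, flip J m i

/-- `λ = 2 j (j e + m_9)`. -/
noncomputable def shift {r : ℕ} (J : Finset (Fin 9)) (d : ℝ) (m : Fin (10 + r) → ℝ) (j : ℤ) : ℝ :=
  2 * j * (j * anti J d m + m (tenth r))

/-- The degree `d + 3 λ` of `T(D)`. -/
noncomputable def unfDeg {r : ℕ} (J : Finset (Fin 9)) (d : ℝ) (m : Fin (10 + r) → ℝ) (j : ℤ) : ℝ :=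
  d + 3 * shift J d m j

/-- The multiplicities of `T(D)`: `m_i' + λ` for `i < 9`, `|m_9 + 2 j e|` for `i = 9`, and `m_i` for
`i ≥ 10`. -/
noncomputable def unfMult {r : ℕ} (J : Finset (Fin 9)) (d : ℝ) (m : Fin (10 + r) → ℝ) (j : ℤ) :
    Fin (10 + r) → ℝ :=
  Fin.append
    (Fin.snoc (α := fun _ => ℝ) (fun i : Fin 9 => flip J m i + shift J d m j)
      |m (tenth r) + 2 * j * anti J d m|)
    (fun l : Fin r => m (Fin.natAdd 10 l))

/-- Let `k` be an algebraically closed field of characteristic different from two and `X` the blow-up of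
the plane at `10 + r` generic points. Let `D = (d; m)` be a real class with `m_i ≥ 0`, `K · D ≤ 0`, which is
nonnegative on all classes of positive expected dimension. Then for all sets `J` of indices `i < 9` and all
integers `j`, `j ≠ 0` or `J` empty, the class `T(D)` is nef, and if `K · T(D) > 0` then `T(D) · C > 0` for
every curve `C` on `X` other than the exceptional curves `E_i`, `i ≥ 10`. -/
theorem result {k : Type*} [Field k] [IsAlgClosed k] (h2 : (2 : k) ≠ 0) (r : ℕ)
    (P : Fin (10 + r) → Fin 2 → k) (hP : IsGeneric P) (d : ℝ) (m : Fin (10 + r) → ℝ)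
    (hD : IsNumNef d m) (hK : ∑ i, m i ≤ 3 * d) (J : Finset (Fin 9)) (j : ℤ) (hJ : j ≠ 0 ∨ J = ∅) :
    IsNef P (unfDeg J d m j) (unfMult J d m j) ∧
      (3 * unfDeg J d m j < ∑ i, unfMult J d m j i →
        (∀ i : Fin (10 + r), (i : ℕ) < 10 → 0 < unfMult J d m j i) ∧
          IsPosOnCurves P (unfDeg J d m j) (unfMult J d m j)) := by
  obtain ⟨hm, hN⟩ := hD
  have h9 : (9 : Fin 10) = Fin.last 9 := rfl
  have hM : ∀ i : Fin 9, unfMult J d m j (ShghP.ix r i) = shift J d m j + ShghP.sgnU J m i := by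
    intro i
    unfold unfMult ShghP.ix
    rw [Fin.append_left, Fin.snoc_castSucc, add_comm]
    rfl
  have hM9 : unfMult J d m j (ShghP.il r) = |m (ShghP.il r) + 2 * j * anti J d m| := by
    unfold unfMult ShghP.il
    rw [Fin.append_left, Fin.snoc_last]
    rfl
  have hMp : ∀ l : Fin r, unfMult J d m j (ShghP.ip l) = m (ShghP.ip l) := by
    intro l
    unfold unfMult ShghP.ip
    rw [Fin.append_right]
  have he : anti J d m = 3 * d - ∑ i : Fin 9, ShghP.sgnU J m i := rfl
  have hlam : shift J d m j = 2 * j * (j * anti J d m + m (ShghP.il r)) := rfl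
  refine ⟨?_, fun hpos => ?_⟩
  · have h := ShghP.unfoldingU h2 P hP d m hm hK hN J j hJ.symm (anti J d m) (shift J d m j) he hlam
      (unfMult J d m j) hM hM9 hMp
    exact ⟨h.1, fun f δ μ hf => h.2 f δ μ hf.1 hf.2.1 hf.2.2⟩
  · have hlt : anti J d m < |m (ShghP.il r) + 2 * j * anti J d m| + ∑ l : Fin r, m (ShghP.ip l) := by
      rw [ShghP.ixU_sum, hM9] at hpos
      simp only [hM, hMp, Finset.sum_add_distrib] at hpos
      rw [Finset.sum_const, Finset.card_univ, Fintype.card_fin, nsmul_eq_mul] at hpos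
      unfold unfDeg at hpos
      push_cast at hpos
      linarith
    have h := ShghP.unfoldingU_strict h2 P hP d m hm hK hN J j hJ.symm (anti J d m)
      (shift J d m j) he hlam hlt (unfMult J d m j) hM hM9 hMp
    refine ⟨fun i => ?_, fun f δ μ hf hδ => h.2.2 f δ μ hf.1 hδ hf.2.1 hf.2.2⟩
    refine ShghP.ixU_cases (fun i => (i : ℕ) < 10 → 0 < unfMult J d m j i) (fun i _ => h.1 i)
      (fun _ => h.2.1) (fun l hl => ?_) i
    exfalso
    unfold ShghP.ip at hl
    rw [Fin.val_natAdd] at hl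
    omega

end Pool.Agent.Lib.MP_0dccba_ag.UnfoldingNefConeOld
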