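import Pool.Agent.ShghI.Uni8
import Pool.Agent.ShghJ.GeoD
import Pool.Agent.ShghJ.Tr

/-!
# The conjecture holds for almost all classes on the blow-up at `s` points

`P 0, ..., P (s - 1)` are points of the affine plane over a field `k` whose `2 s` coordinates are
algebraically independent over the prime field. We consider curves of degree `δ` with multiplicities
`≥ μ i` at `P i`, that is, the divisor class `D = δ H - Σ μ_i E_i` on the blow-up. The number `s` of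
the points is fixed, and the vectors `(μ_0, ..., μ_(s-1))` are ordered and can have entries `0`.
-/

namespace Pool.Agent.Lib.MP_0dccba_ag.UniformDensity

open MvPolynomial

universe u

/-- `H⁰(X, D)`: the polynomials of degree `≤ δ` with multiplicity `≥ μ i` at the point `P i`. -/
def sections {k : Type*} [Field k] {s : ℕ} (P : Fin s → Fin 2 → k) (δ : ℕ) (μ : Fin s → ℕ) :
    Submodule k (MvPolynomial (Fin 2) k) where
  carrier := {f | f.totalDegree ≤ δ ∧ ∀ i, f ∈ (Ideal.span {X 0 - C (P i 0), X 1 - C (P i 1)} :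
    Ideal (MvPolynomial (Fin 2) k)) ^ μ i}
  add_mem' := fun {f g} hf hg => ⟨(totalDegree_add f g).trans (max_le hf.1 hg.1),
    fun i => Ideal.add_mem _ (hf.2 i) (hg.2 i)⟩
  zero_mem' := ⟨by simp, fun i => Ideal.zero_mem _⟩
  smul_mem' := fun c f hf => ⟨(totalDegree_smul_le c f).trans hf.1, fun i => by
    rw [smul_eq_C_mul]
    exact Ideal.mul_mem_left _ _ (hf.2 i)⟩

/-- The Euler characteristic `χ(D) = (δ + 1)(δ + 2) / 2 - Σ μ_i (μ_i + 1) / 2`. -/
def chi {s : ℕ} (δ : ℕ) (μ : Fin s → ℕ) : ℤ :=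
  ((δ + 2).choose 2 : ℤ) - ∑ i, ((μ i + 1).choose 2 : ℤ)

/-- The vector `μ` of multiplicities is regular in degree `δ` if `h⁰(D) = max (0, χ(D))` for every
field of characteristic `0` or larger than `δ` and all generic points `P 0, ..., P (s - 1)`. -/
def Regular {s : ℕ} (δ : ℕ) (μ : Fin s → ℕ) : Prop :=
  ∀ (k : Type u) [Field k] (P : Fin s → Fin 2 → k), (∀ n : ℕ, 1 ≤ n → n ≤ δ → (n : k) ≠ 0) →
    AlgebraicIndependent (⊥ : Subfield k) (fun ij : Fin s × Fin 2 => P ij.1 ij.2) →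
    (Module.finrank k (sections P δ μ) : ℤ) = max 0 (chi δ μ)

/-- The vectors `(μ_0, ..., μ_(s-1))` of multiplicities with `Σ μ_i (μ_i + 1) / 2 ≤ R`. -/
def vectors (s R : ℕ) : Set (Fin s → ℕ) :=
  {μ | ∑ i, (μ i + 1).choose 2 ≤ R}

theorem T_eq (m : ℕ) : ShghJ.T m = (m + 1).choose 2 := by
  rw [Nat.choose_two_right, Nat.add_sub_cancel, ShghJ.T, mul_comm]

theorem sT_eq {s : ℕ} (μ : Fin s → ℕ) : ShghI.sT μ = ∑ i, (μ i + 1).choose 2 :=
  Finset.sum_congr rfl fun i _ => T_eq (μ i)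

theorem chi_eq {s : ℕ} (δ : ℕ) (μ : Fin s → ℕ) :
    chi δ μ = (ShghJ.T (δ + 1) : ℤ) - ShghI.sT μ := by
  rw [ShghI.sT_eq_TT]
  exact ShghJ.tr_chi δ μ

theorem vectors_eq (s R : ℕ) : vectors s R = (ShghI.BB s R : Set (Fin s → ℕ)) := by
  ext μ
  rw [Finset.mem_coe, ShghI.mem_BB, sT_eq]
  rfl

theorem regular_of {s : ℕ} {δ : ℕ} {μ : Fin s → ℕ} (x : ℕ) (hm : ShghI.MassOK x μ)
    (hw : x + 8 * ShghI.sT μ ≤ 8 * ShghJ.T (δ + 1) ∨
      x + 13 * ShghJ.T (δ + 1) ≤ 13 * ShghI.sT μ) : Regular.{u} δ μ := by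
  intro k _ P hchar hP
  have h1 : Module.finrank k (sections P δ μ) =
      ShghJ.hF (⊥ : Subfield k) δ (Finset.univ.val.map μ) := ShghJ.finrank_LS_eq_hF δ μ P hP
  have h2 := ShghI.exp_of_mass (ShghJ.hfunD_hF (⊥ : Subfield k) δ (ShghJ.tr_char hchar)) x μ hm hw
  rw [h1, h2, chi_eq]

/-- From a bound for the cardinality of a finset to the bound for the set. -/
theorem ncard_bound {s R : ℕ} {ε : ℝ} (B : Set (Fin s → ℕ)) (p : (Fin s → ℕ) → Prop)
    [DecidablePred p] (hp : ∀ μ ∈ ShghI.BB s R, μ ∈ B → p μ)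
    (h : (((ShghI.BB s R).filter p).card : ℝ) ≤ ε * (ShghI.BB s R).card) :
    ((vectors s R ∩ B).ncard : ℝ) ≤ ε * (vectors s R).ncard := by
  rw [vectors_eq, Set.ncard_coe_finset]
  refine le_trans ?_ h
  rw [← Set.ncard_coe_finset ((ShghI.BB s R).filter p)]
  refine Nat.cast_le.2 (Set.ncard_le_ncard (fun μ hμ => ?_) (Finset.finite_toSet _))
  rw [Finset.mem_coe, Finset.mem_filter]
  exact ⟨hμ.1, hp μ hμ.1 hμ.2⟩

/-- Let `s ≥ 2` and `R ≥ 0`. We consider the vectors `μ = (μ_0, ..., μ_(s-1))` with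
`Σ μ_i (μ_i + 1) / 2 ≤ R`.
(i) For every degree `δ`, all but a proportion `10^12 (log s)² / √s` of the vectors are regular in
degree `δ`.
(ii) Let `10^14 (log s)² ≤ w ≤ s^(1/4)`. All but a proportion `1 / w` of the vectors are regular in
every degree `δ` such that `|χ(D)| ≥ 31 w² R / s³`, and in every degree if `R ≤ s⁶ / w⁸`. -/
theorem result (s R : ℕ) (hs : 2 ≤ s) :
    (∀ δ : ℕ, ((vectors s R ∩ {μ | ¬ Regular.{u} δ μ}).ncard : ℝ) ≤
      10 ^ 12 * Real.log s ^ 2 / √s * (vectors s R).ncard) ∧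
    ∀ w : ℝ, 10 ^ 14 * Real.log s ^ 2 ≤ w → w ^ 4 ≤ s →
      ((vectors s R ∩ {μ | ∃ δ : ℕ, 31 * (w ^ 2 * R / s ^ 3) ≤ |(chi δ μ : ℝ)| ∧
        ¬ Regular.{u} δ μ}).ncard : ℝ) ≤ 1 / w * (vectors s R).ncard ∧
      ((R : ℝ) ≤ (s : ℝ) ^ 6 / w ^ 8 →
        ((vectors s R ∩ {μ | ∃ δ : ℕ, ¬ Regular.{u} δ μ}).ncard : ℝ) ≤
          1 / w * (vectors s R).ncard) := by
  classical
  have hs0 : (0 : ℝ) < s := by exact_mod_cast (show 0 < s by omega)
  refine ⟨fun δ => ?_, fun w hw hws => ?_⟩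
  · obtain ⟨x, -, -, hx⟩ := ShghI.uni_dens s R (ShghJ.T (δ + 1)) hs
    refine ncard_bound _ _ (fun μ _ hμ => ?_) hx
    intro h
    exact hμ (regular_of x h.1 h.2)
  · obtain ⟨-, hw13, -, -, -⟩ := ShghI.w_facts s hs w hw hws
    have hw0 : 0 < w := by linarith
    obtain ⟨x, hx1, hx2, hx3⟩ := ShghI.uni_all s R hs w hw hws
    refine ⟨?_, fun hR => ?_⟩
    · refine ncard_bound _ _ (fun μ _ hμ => ?_) hx2
      obtain ⟨δ, h1, h2⟩ := hμ
      intro h3
      refine h2 (regular_of x h3 ?_)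
      have h5 : (x : ℝ) ≤ 8 * |(chi δ μ : ℝ)| := by
        have h6 : (x : ℝ) ≤ 248 * (w ^ 2 * R) / s ^ 3 := by
          rw [le_div_iff₀ (by positivity)]
          exact hx1
        have e : 248 * (w ^ 2 * (R : ℝ)) / s ^ 3 = 8 * (31 * (w ^ 2 * R / s ^ 3)) := by ring
        rw [e] at h6
        linarith
      have h6 : (x : ℤ) ≤ 8 * |chi δ μ| := by exact_mod_cast h5
      rw [chi_eq] at h6
      rcases abs_cases ((ShghJ.T (δ + 1) : ℤ) - ShghI.sT μ) with ⟨h7, h8⟩ | ⟨h7, h8⟩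
      · left
        omega
      · right
        omega
    · rw [le_div_iff₀ (by positivity)] at hR
      refine ncard_bound _ _ (fun μ _ hμ => ?_) (hx3 hR)
      obtain ⟨δ, h2⟩ := hμ
      intro h3
      exact h2 (regular_of x h3.1 (h3.2 δ))

end Pool.Agent.Lib.MP_0dccba_ag.UniformDensity
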